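import Pool.Agent.Helper40.TWM.Stmts
import Pool.Agent.Helper59.TWR.KK
import Pool.Agent.Helper73.TWR.Tool

/-! MEN: the module of the entries of an equivariant matrix (MP_7a8f48_an). -/

set_option linter.unusedSectionVars false

open MeasureTheory Filter Topology Finset
open scoped ComplexConjugate

namespace Pool.Agent.Helper59.TWM

open Pool.Agent.Helper98.TW
open Pool.Agent.Helper40.TWM
open Pool.Agent.Helper73.TWR
open Pool.Agent.Helper59.TWR

section men

variable {Ω : Type} [m0 : MeasurableSpace Ω] {μ : Measure Ω} [IsProbabilityMeasure μ]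

theorem int_conj_mul {ψ : Ω → ℂ} (hψ : UF μ ψ) (F : Lp ℂ 2 μ) :
    Integrable (fun x => conj (ψ x) * F x) μ :=
  hψ.ab.conj.int_mul ((Lp.memLp F).integrable (by norm_num))

theorem mem_EO' {C : SA Ω} (hC : Lm C) {ψ : Ω → ℂ} (hψ : UF μ ψ) {F' : Lp ℂ 2 μ}
    (h : μ[fun x => conj (ψ x) * F' x|C] =ᵐ[μ] 0) : F' ∈ EO (SP μ C ψ) := by
  rintro H ⟨c, hc, hb, hH⟩
  have hcab : AB μ c := ⟨AEStronglyMeasurable.mono hC hc, hb⟩
  have hg := int_conj_mul hψ F'
  rw [inner_eq hH]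
  have h1 := int_zero_of_ce hC (am_conj hc) (hcab.conj.int_mul hg) hg h
  rw [← h1]
  refine integral_congr_ae (Eventually.of_forall fun x => ?_)
  simp only [map_mul]
  ring

theorem conj_ind (s : Set Ω) (x : Ω) : conj (ind s x) = ind s x := by
  by_cases h : x ∈ s <;> simp [ind, h]

theorem ce_of_EO {C : SA Ω} (hC : Lm C) {ψ : Ω → ℂ} (hψ : UF μ ψ) {G : Lp ℂ 2 μ}
    (h : G ∈ EO (SP μ C ψ)) : μ[fun x => conj (ψ x) * G x|C] =ᵐ[μ] 0 := by
  refine ce_zero hC (int_conj_mul hψ G) fun s hs => ?_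
  obtain ⟨H, hH, hH'⟩ := exists_SP hC hψ (am_ind μ hs) ⟨1, Eventually.of_forall (norm_ind_le s)⟩
  rw [← h H hH, inner_eq hH']
  refine integral_congr_ae (Eventually.of_forall fun x => ?_)
  simp only [map_mul, conj_ind]
  ring

theorem ce_conj_zero {C : SA Ω} (hC : Lm C) {F : Ω → ℂ} (hF : AB μ F)
    (h : μ[F|C] =ᵐ[μ] 0) : μ[fun x => conj (F x)|C] =ᵐ[μ] 0 := by
  refine ce_zero hC hF.conj.int fun s hs => ?_
  have h1 := int_zero_of_ce hC (am_ind μ hs) ((ab_ind hC hs).int_mul hF.int) hF.int h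
  have h2 : ∫ x, ind s x * conj (F x) ∂μ = conj (∫ x, ind s x * F x ∂μ) := by
    rw [← integral_conj]
    refine integral_congr_ae (Eventually.of_forall fun x => ?_)
    simp only [map_mul, conj_ind]
  rw [h2, h1, map_zero]

/-- entries of `β σ X ρ*` -/
theorem ent {m : ℕ} (β : ℂ) (σ X ρ : Matrix (Fin m) (Fin m) ℂ) (a b : Fin m) :
    (β • (σ * X * ρ.conjTranspose)) a b =
      ∑ z : Fin m × Fin m, (β * σ a z.1 * conj (ρ b z.2)) * X z.1 z.2 := by
  simp only [Matrix.smul_apply, Matrix.mul_apply, Matrix.conjTranspose_apply, smul_eq_mul,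
    Finset.mul_sum, Finset.sum_mul, Fintype.sum_prod_type]
  rw [Finset.sum_comm]
  refine Finset.sum_congr rfl fun i _ => Finset.sum_congr rfl fun j _ => ?_
  rw [Complex.star_def]
  ring

theorem ce_sum {C : SA Ω} {ι : Type} [Fintype ι] {g F : ι → Ω → ℂ}
    (hg : ∀ i, AM μ C (g i)) (hgb : ∀ i, AB μ (g i)) (hF : ∀ i, AB μ (F i)) :
    μ[fun x => ∑ i, g i x * F i x|C] =ᵐ[μ] fun x => ∑ i, g i x * (μ[F i|C]) x := by
  have h1 : (fun x => ∑ i, g i x * F i x) = ∑ i, fun x => g i x * F i x := by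
    funext x
    rw [Finset.sum_apply]
  rw [h1]
  have h2 := condExp_finsetSum (s := Finset.univ) (m := C) (μ := μ)
    (f := fun i x => g i x * F i x) (fun i _ => (hgb i).int_mul (hF i).int)
  have h3 : ∀ᵐ x ∂μ, ∀ i, (μ[fun x => g i x * F i x|C]) x = g i x * (μ[F i|C]) x :=
    ae_all_iff.2 fun i => pull (hg i) ((hgb i).int_mul (hF i).int) (hF i).int
  filter_upwards [h2, h3] with x hx hx'
  rw [hx, Finset.sum_apply]
  exact Finset.sum_congr rfl fun i _ => hx' i

/-- the matrix of the conditional expectations of the entries -/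
noncomputable def EM (μ : Measure Ω) (C : SA Ω) {m : ℕ} (X : Ω → Matrix (Fin m) (Fin m) ℂ)
    (x : Ω) : Matrix (Fin m) (Fin m) ℂ := Matrix.of fun a b => (μ[fun y => X y a b|C]) x

theorem EM_apply {C : SA Ω} {m : ℕ} (X : Ω → Matrix (Fin m) (Fin m) ℂ) (x : Ω) (a b : Fin m) :
    EM μ C X x a b = (μ[fun y => X y a b|C]) x := rfl

/-- conditional expectations of equivariant matrices -/
theorem ce_eqv {C : SA Ω} {R R' : Ω → Ω} (hS : Sys μ R R') (hC : IA μ C R R') {m : ℕ}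
    {X σ ρ : Ω → Matrix (Fin m) (Fin m) ℂ} {β : Ω → ℂ} (hX : ∀ a b, AB μ fun x => X x a b)
    (hσ : ∀ a b, AM μ C fun x => σ x a b) (hσb : ∀ a b, AB μ fun x => σ x a b)
    (hρ : ∀ a b, AM μ C fun x => ρ x a b) (hρb : ∀ a b, AB μ fun x => ρ x a b)
    (hβ : AM μ C β) (hβb : AB μ β)
    (h : ∀ᵐ x ∂μ, X (R x) = β x • (σ x * X x * (ρ x).conjTranspose)) :
    ∀ᵐ x ∂μ, EM μ C X (R x) = β x • (σ x * EM μ C X x * (ρ x).conjTranspose) := by
  have key : ∀ᵐ x ∂μ, ∀ z : Fin m × Fin m, (μ[fun y => X y z.1 z.2|C]) (R x) =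
      ∑ w : Fin m × Fin m, (β x * σ x z.1 w.1 * conj (ρ x z.2 w.2)) *
        (μ[fun y => X y w.1 w.2|C]) x := by
    refine ae_all_iff.2 fun z => ?_
    have h1 := cec hS hC (hX z.1 z.2).int
    have h2 : (fun x => X (R x) z.1 z.2) =ᵐ[μ] fun x => ∑ w : Fin m × Fin m,
        (β x * σ x z.1 w.1 * conj (ρ x z.2 w.2)) * X x w.1 w.2 := by
      filter_upwards [h] with x hx
      rw [hx, ent]
    have h3 := ce_sum (μ := μ) (ι := Fin m × Fin m)
      (g := fun w x => β x * σ x z.1 w.1 * conj (ρ x z.2 w.2)) (F := fun w x => X x w.1 w.2)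
      (fun w => am_mul (am_mul hβ (hσ _ _)) (am_conj (hρ _ _)))
      (fun w => (hβb.mul (hσb _ _)).mul (hρb _ _).conj) (fun w => hX _ _)
    have h4 := ce_congr (μ := μ) (𝒜 := C) h2
    filter_upwards [h1, h3, h4] with x e1 e3 e4
    rw [← e1, e4, e3]
  filter_upwards [key] with x hx
  ext a b
  rw [ent]
  exact hx (a, b)

theorem ab_unit {C : SA Ω} (hC : Lm C) {m : ℕ} {σ : Ω → Matrix (Fin m) (Fin m) ℂ}
    (hσ : ∀ a b, AM μ C fun x => σ x a b) (hu : ∀ᵐ x ∂μ, σ x ∈ Matrix.unitaryGroup (Fin m) ℂ)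
    (a b : Fin m) : AB μ fun x => σ x a b := by
  refine ⟨AEStronglyMeasurable.mono hC (hσ a b), 1, ?_⟩
  filter_upwards [hu] with x hx
  exact entry_norm_bound_of_unitary hx a b

end men

theorem st_MEN (hSPN : ST_SPN) : ST_MEN := by
  intro Ω _ μ _ S S' C p q R₀ m Y σ ρ hS hE hQ hm hYm hYB hσ hρ hσu hρu hcov hnot
  have hI : IA μ C S^[p] S'^[p] := hQ.ia.iterate p
  have hC : Lm C := hI.1
  obtain ⟨BY, hBY⟩ := hYB
  have hYab : ∀ a b, AB μ fun x => Y x a b := fun a b => ⟨hYm a b, BY, by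
    filter_upwards [hBY] with x hx
    exact hx a b⟩
  have hσb := ab_unit hC hσ hσu
  have hρb := ab_unit hC hρ hρu
  have hcov1 : ∀ᵐ x ∂μ, Y (S^[p] x) = (1 : ℂ) • (σ x * Y x * (ρ x).conjTranspose) := by
    filter_upwards [hcov] with x hx
    rw [hx, one_smul]
  have hcovE := ce_eqv hS hI hYab hσ hσb hρ hρb (am_const 1) (ab_const 1) hcov1
  -- the difference
  set D : Fin m → Fin m → Ω → ℂ := fun a b x => Y x a b - (μ[fun y => Y y a b|C]) x with hD
  have hDab : ∀ a b, AB μ (D a b) := fun a b => (hYab a b).sub ((hYab a b).ce hC)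
  set w : Fin (m * m) → Lp ℂ 2 μ := fun i =>
    (hDab (finProdFinEquiv.symm i).1 (finProdFinEquiv.symm i).2).memLp.toLp _ with hw
  have hwD : ∀ i, w i =ᵐ[μ] D (finProdFinEquiv.symm i).1 (finProdFinEquiv.symm i).2 := fun i =>
    MemLp.coeFn_toLp _
  have hwall : ∀ᵐ x ∂μ, ∀ i, w i x =
      D (finProdFinEquiv.symm i).1 (finProdFinEquiv.symm i).2 x := ae_all_iff.2 hwD
  set c : Fin (m * m) → Fin (m * m) → Ω → ℂ := fun i j x =>
    σ x (finProdFinEquiv.symm i).1 (finProdFinEquiv.symm j).1 *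
      conj (ρ x (finProdFinEquiv.symm i).2 (finProdFinEquiv.symm j).2) with hc
  have hbd : ∃ B : ℝ, ∀ i, ∀ᵐ x ∂μ, ‖w i x‖ ≤ B := by
    choose B hB using fun i : Fin (m * m) =>
      (hDab (finProdFinEquiv.symm i).1 (finProdFinEquiv.symm i).2).2
    refine ⟨∑ i, |B i|, fun i => ?_⟩
    filter_upwards [hB i, hwD i] with x h1 h2
    rw [h2]
    exact (h1.trans (le_abs_self _)).trans
      (Finset.single_le_sum (f := fun i => |B i|) (fun j _ => abs_nonneg (B j))
        (Finset.mem_univ i))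
  have hcb : ∃ B : ℝ, ∀ i j, ∀ᵐ x ∂μ, ‖c i j x‖ ≤ B := by
    refine ⟨1, fun i j => ?_⟩
    filter_upwards [hσu, hρu] with x h1 h2
    rw [hc]
    simp only [norm_mul, RCLike.norm_conj]
    exact mul_le_one₀ (entry_norm_bound_of_unitary h1 _ _) (norm_nonneg _)
      (entry_norm_bound_of_unitary h2 _ _)
  have hwc : ∀ i, ∀ᵐ x ∂μ, w i (S^[p] x) = ∑ j, c i j x * w j x := by
    intro i
    filter_upwards [ae_comp hS.mp hwall, hwall, hcov, hcovE] with x h1 h2 h3 h4
    have h5 := congrFun (congrFun h3 (finProdFinEquiv.symm i).1) (finProdFinEquiv.symm i).2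
    have h6 := congrFun (congrFun h4 (finProdFinEquiv.symm i).1) (finProdFinEquiv.symm i).2
    have h7 := ent 1 (σ x) (Y x) (ρ x) (finProdFinEquiv.symm i).1 (finProdFinEquiv.symm i).2
    rw [one_smul] at h7
    rw [ent] at h6
    rw [h1 i]
    simp only [hD]
    rw [h5, h7]
    refine (congrArg₂ (· - ·) rfl h6).trans ?_
    rw [← Finset.sum_sub_distrib, ← finProdFinEquiv.symm.sum_comp]
    refine Finset.sum_congr rfl fun j _ => ?_
    rw [h2 j]
    simp only [hD, hc, EM_apply]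
    ring
  obtain ⟨G, hG, hwG, hRk, hmin⟩ := hSPN Ω μ S^[p] S'^[p] C (m * m) w c hS hI hbd hcb
    (fun i j => am_mul (hσ _ _) (am_conj (hρ _ _))) hwc
  have hGne : G ≠ ⊥ := by
    intro hbot
    apply hnot
    intro a b
    have h1 : w (finProdFinEquiv (a, b)) = 0 := by
      have := hwG (finProdFinEquiv (a, b))
      rw [hbot, Submodule.mem_bot] at this
      exact this
    have h2 := hwD (finProdFinEquiv (a, b))
    rw [Equiv.symm_apply_apply, h1] at h2
    refine am_congr (ce_am (μ := μ) (𝒜 := C) (F := fun y => Y y a b)) ?_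
    filter_upwards [h2, Lp.coeFn_zero ℂ 2 μ] with x h3 h4
    rw [h4] at h3
    have h5 : (0 : ℂ) = Y x a b - (μ[fun y => Y y a b|C]) x := h3
    exact (sub_eq_zero.1 h5.symm).symm
  have hRk2 : Rk μ C G (R₀ ^ 2) := by
    intro k e he hon
    refine (hRk k e he hon).trans ?_
    rw [pow_two]
    exact Nat.mul_le_mul hm hm
  obtain ⟨ψ, hψ, hψI, g, hg, hgψ⟩ := hQ.m G hG hGne hRk2
  -- the conditional expectation of `ψ` vanishes
  have huone : UF μ (fun _ : Ω => (1 : ℂ)) := uf_one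
  have hw0 : ∀ i, μ[w i|C] =ᵐ[μ] 0 := by
    intro i
    have h1 := hYab (finProdFinEquiv.symm i).1 (finProdFinEquiv.symm i).2
    have h2 := ce_sub (𝒜 := C) h1.int (h1.ce hC).int
    have h3 := ce_of_am hC (h1.ce hC).int (ce_am (μ := μ) (𝒜 := C))
    have h4 := ce_congr (𝒜 := C) (hwD i)
    filter_upwards [h2, h3, h4] with x e2 e3 e4
    rw [e4]
    refine e2.trans ?_
    rw [e3, sub_self]
    rfl
  have hle1 : G ≤ EO (SP μ C fun _ => (1 : ℂ)) := by
    refine hmin _ (EO_CM hS hI huone inc_one).toC0 fun i => ?_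
    refine mem_EO' hC huone ?_
    refine EventuallyEq.trans (ce_congr (Eventually.of_forall fun x => ?_)) (hw0 i)
    simp
  have hψ0 : μ[ψ|C] =ᵐ[μ] 0 := by
    have h1 := ce_of_EO hC huone (hle1 hg)
    refine EventuallyEq.trans (ce_congr ?_) h1
    filter_upwards [hgψ] with x hx
    rw [hx]
    simp
  have hψc0 := ce_conj_zero hC hψ.ab hψ0
  -- the matrix
  have hXab : ∀ a b, AB μ fun x => (conj (ψ x) • Y x) a b := fun a b =>
    hψ.ab.conj.mul (hYab a b)
  have hbinc : AM μ C (fun x => conj (ψ (S^[p] x) * conj (ψ x))) := am_conj hψI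
  have hbab : AB μ (fun x => conj (ψ (S^[p] x) * conj (ψ x))) :=
    ((hψ.comp hS.mp).ab.mul hψ.ab.conj).conj
  have hcovX : ∀ᵐ x ∂μ, conj (ψ (S^[p] x)) • Y (S^[p] x) = conj (ψ (S^[p] x) * conj (ψ x)) •
        (σ x * (conj (ψ x) • Y x) * (ρ x).conjTranspose) := by
    filter_upwards [hcov, hψ.mul_conj] with x h1 h2
    ext a b
    have h3 := ent 1 (σ x) (Y x) (ρ x) a b
    rw [one_smul] at h3
    rw [ent, h1, Matrix.smul_apply, h3, smul_eq_mul, Finset.mul_sum]
    refine Finset.sum_congr rfl fun z _ => ?_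
    simp only [map_mul, Complex.conj_conj, Matrix.smul_apply, smul_eq_mul]
    linear_combination -(conj (ψ (S^[p] x)) * σ x a z.1 * conj (ρ x b z.2) * Y x z.1 z.2) * h2
  have hcovB := ce_eqv hS hI (X := fun x => conj (ψ x) • Y x) hXab hσ hσb hρ hρb hbinc
    hbab hcovX
  refine ⟨ψ, EM μ C fun x => conj (ψ x) • Y x, hψ, hψI, hψ0,
    fun a b => ce_am, ?_, ?_, hcovB⟩
  · choose L hL using fun z : Fin m × Fin m => ((hXab z.1 z.2).ce hC).2
    refine ⟨∑ z, |L z|, ?_⟩
    filter_upwards [ae_all_iff.2 hL] with x hx a b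
    exact ((hx (a, b)).trans (le_abs_self _)).trans
      (Finset.single_le_sum (f := fun i => |L i|) (fun j _ => abs_nonneg (L j))
        (Finset.mem_univ (a, b)))
  · intro hB0
    have hle2 : G ≤ EO (SP μ C ψ) := by
      refine hmin _ (EO_CM hS hI hψ hψI).toC0 fun i => ?_
      refine mem_EO' hC hψ ?_
      have h1 := hYab (finProdFinEquiv.symm i).1 (finProdFinEquiv.symm i).2
      have h2 : (fun x => conj (ψ x) * w i x) =ᵐ[μ] fun x =>
          conj (ψ x) * Y x (finProdFinEquiv.symm i).1 (finProdFinEquiv.symm i).2 -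
          (μ[fun y => Y y (finProdFinEquiv.symm i).1 (finProdFinEquiv.symm i).2|C]) x *
            conj (ψ x) := by
        filter_upwards [hwD i] with x hx
        rw [hx]
        simp only [hD]
        ring
      have h3 := ce_sub (𝒜 := C) (hXab (finProdFinEquiv.symm i).1 (finProdFinEquiv.symm i).2).int
        ((h1.ce hC).mul hψ.ab.conj).int
      have h4 := ce_mul_zero (ce_am (μ := μ) (𝒜 := C)
        (F := fun y => Y y (finProdFinEquiv.symm i).1 (finProdFinEquiv.symm i).2))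
        ((h1.ce hC).mul hψ.ab.conj).int hψ.ab.conj.int hψc0
      filter_upwards [ce_congr (𝒜 := C) h2, h3, h4, hB0] with x e2 e3 e4 e5
      rw [e2]
      refine e3.trans ?_
      have e6 := congrFun (congrFun e5 (finProdFinEquiv.symm i).1) (finProdFinEquiv.symm i).2
      rw [e4]
      exact (congrArg (· - (0 : Ω → ℂ) x) e6).trans (by simp)
    have h1 : (inner ℂ g g : ℂ) = 0 := by
      refine hle2 hg g ⟨fun _ => 1, am_const 1, ⟨1, Eventually.of_forall fun x => by simp⟩, ?_⟩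
      filter_upwards [hgψ] with x hx
      rw [hx, one_mul]
    have h2 : g = 0 := inner_self_eq_zero.1 h1
    have h3 : ∀ᵐ x ∂μ, False := by
      have h4 : (g : Ω → ℂ) =ᵐ[μ] 0 := by
        rw [h2]
        exact Lp.coeFn_zero ℂ 2 μ
      filter_upwards [h4, hgψ, hψ.2] with x h5 h6 h7
      rw [← h6, h5] at h7
      simp at h7
    obtain ⟨x, hx⟩ := h3.exists
    exact hx

end Pool.Agent.Helper59.TWM
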